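import Pool.Agent.Helper41.SQC.Goals
import Pool.Agent.Helper4.SQ.DE

/-!
Project SQ stage C (MP_bb32d1_al), packet CTT: `V (x) -` and `V* (x) -` of a `GlT` family.
-/

set_option autoImplicit false

namespace Pool.Agent.Helper85.SQC

open Matrix Pool.Agent.Helper19.SQ Pool.Agent.Helper34.SQ Pool.Agent.Helper41.SQ
  Pool.Agent.Helper4.SQ Pool.Agent.Helper41.SQC

section

variable {N l : ℕ} {q : ℂ} {R : Type} [Ring R] [Algebra ℂ R] {t t' E F K : ℕ → R}

theorem dg_central {x : R} (hx : ∀ y, x * y = y * x) (M : Mat N R) :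
    dgH N R x * M = M * dgH N R x := by
  ext a b
  rw [dgH_eq, Matrix.mul_diagonal, Matrix.diagonal_mul]
  exact hx _

theorem cm_sd (X : ℕ → Mat N ℂ) (Y : ℕ → R) :
    Cm (fun i => scH N R (X i)) (fun i => dgH N R (Y i)) :=
  fun i j => sc_dg (X i) (Y j)

theorem dl_fam (hCT : S_CTP) (hV : S_VREP) (hP : Par N l q) (h : GlT N l q t t' E F K) :
    GlT N l q (fun i => (Matrix.diagonal fun _ => t i : Mat N R))
      (fun i => (Matrix.diagonal fun _ => t' i : Mat N R)) (dE N q E) (dFt N l t' F K)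
      (dK N q K) := by
  have h1 := (hV N l q hP).1.map (scH N R)
  have h2 := h.map (dgH N R) (fun i x => dg_central (h.tc i) x) (fun i x => dg_central (h.tc' i) x)
  have h := hCT _ N l q _ _ _ _ _ _ _ _ hP h1 h2
    ⟨cm_sd _ _, cm_sd _ _, cm_sd _ _, cm_sd _ _, cm_sd _ _, cm_sd _ _, cm_sd _ _, cm_sd _ _,
      cm_sd _ _⟩
  have eE : cE l (fun i => scH N R (vE N i)) (fun i => scH N R (vK N q i))
      (fun i => dgH N R (E i)) = dE N q E := by
    funext k
    ext a b
    rw [cE, kk_map, Matrix.add_apply, sc_mul_dg, kk_vK hP, scH_apply, dE, Matrix.of_apply, vE,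
      Matrix.of_apply, add_comm, Matrix.diagonal_apply]
    congr 1
    · split_ifs <;> simp
    · split_ifs <;> simp
  have eF : (fun i => dgH N R (t' i) * (scH N R (vF N i) *
      kk l (fun i => dgH N R (K i)) (i + 1) i) + dgH N R (F i)) = dFt N l t' F K := by
    funext k
    ext a b
    rw [kk_map, Matrix.add_apply, dgH_eq, Matrix.diagonal_mul, sc_mul_dg, dFt, Matrix.of_apply, vF,
      Matrix.of_apply, add_comm, dgH_eq, Matrix.diagonal_apply]
    congr 1
    split_ifs
    · rw [one_smul]; rfl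
    · rw [zero_smul, mul_zero]
  have eK : cK (fun i => scH N R (vK N q i)) (fun i => dgH N R (K i))
      = dK N q K := by
    funext k
    ext a b
    rw [cK, sc_mul_dg, dK, Matrix.of_apply, vK, Matrix.diagonal_apply]
    split_ifs <;> simp
  rw [eE, eF, eK] at h
  exact h

theorem ep_fam (hCT : S_CTP) (hV : S_VREP) (hP : Par N l q) (h : GlT N l q t t' E F K) :
    GlT N l q (fun i => (Matrix.diagonal fun _ => t i : Mat N R))
      (fun i => (Matrix.diagonal fun _ => t' i : Mat N R)) (eE N q E) (eFt N l q t' F K)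
      (eK N q K) := by
  have h1 := (hV N l q hP).2.map (scH N R)
  have h2 := h.map (dgH N R) (fun i x => dg_central (h.tc i) x) (fun i x => dg_central (h.tc' i) x)
  have h := hCT _ N l q _ _ _ _ _ _ _ _ hP h1 h2
    ⟨cm_sd _ _, cm_sd _ _, cm_sd _ _, cm_sd _ _, cm_sd _ _, cm_sd _ _, cm_sd _ _, cm_sd _ _,
      cm_sd _ _⟩
  have eE' : cE l (fun i => scH N R (wE N q i)) (fun i => scH N R (wK N q i))
      (fun i => dgH N R (E i)) = eE N q E := by
    funext k
    ext a b
    rw [cE, kk_map, Matrix.add_apply, sc_mul_dg, kk_wK hP, scH_apply, eE, Matrix.of_apply, wE,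
      Matrix.of_apply, add_comm, Matrix.diagonal_apply]
    congr 1
    · split_ifs <;> simp
    · split_ifs
      · rw [Algebra.algebraMap_eq_smul_one]
      · simp
  have eF' : (fun i => dgH N R (t' i) * (scH N R (wF N q i) *
      kk l (fun i => dgH N R (K i)) (i + 1) i) + dgH N R (F i)) = eFt N l q t' F K := by
    funext k
    ext a b
    rw [kk_map, Matrix.add_apply, dgH_eq, Matrix.diagonal_mul, sc_mul_dg, eFt, Matrix.of_apply, wF,
      Matrix.of_apply, add_comm, dgH_eq, Matrix.diagonal_apply]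
    congr 1
    split_ifs
    · rw [mul_smul_comm]; rfl
    · rw [zero_smul, mul_zero]
  have eK' : cK (fun i => scH N R (wK N q i)) (fun i => dgH N R (K i))
      = eK N q K := by
    funext k
    ext a b
    rw [cK, sc_mul_dg, eK, Matrix.of_apply, wK, Matrix.diagonal_apply]
    split_ifs <;> simp
  rw [eE', eF', eK'] at h
  exact h

end

/-- packet CTT. -/
theorem c_ctt (h1 : S_CTP) (h2 : S_VREP) : S_CTT := by
  intro R _ _ N l q t t' E F K hP h
  exact ⟨dl_fam h1 h2 hP h, ep_fam h1 h2 hP h⟩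

end Pool.Agent.Helper85.SQC
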